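import Pool.Agent.V1157.BD.Defs
import Pool.Agent.V1157.RC.Defs

/-!
# The Tate conjecture and free groups of motivic automorphisms: definitions
-/

set_option autoImplicit false

open CategoryTheory AlgebraicGeometry

universe u v w

namespace Pool.Agent.V1178.TF

open Pool.Agent.H914 Pool.Agent.H914.VarClass Pool.Agent.H914.VarClass.Obj Pool.Agent.W492.BB
  Pool.Agent.V1157.BD

variable {k : Type u} [Field k] {𝒱 : VarClass k} {C : TheoryData.{u, v, 0} 𝒱 ℚ} {K : Type w}
  [Field K] {H : WeilTheoryData.{u, v, w} C K}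

/-- `T X` is, for every variety `X` of dimension `n`, a subspace of `H^{2r}(X)`, and the
correspondences of degree zero between varieties of dimension `n` respect these spaces. (For the Tate
conjecture over `k`: the Galois-invariant classes in `H^{2r}(X_{k^sep}, ℚ_ℓ(r))`.) -/
structure IsTateFamily (n r : ℕ) (T : ∀ X : 𝒱.Obj, Submodule K (H.A X)) : Prop where
  deg {X : 𝒱.Obj} {t : H.A X} : X.dim = n → t ∈ T X → H.Deg (2 * r) t
  act {X Y : 𝒱.Obj} (Γ : C.A (X.prod Y)) {t : H.A X} : X.dim = n → Y.dim = n → C.Deg n Γ →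
    t ∈ T X → H.act (H.cl Γ) t ∈ T Y

variable (P : 𝒱.Obj → Prop) (n r : ℕ) (T : ∀ X : 𝒱.Obj, Submodule K (H.A X))

/-- The classes in `T X` are algebraic for the varieties `X` of dimension `n` in the class `P`. -/
def TateFor : Prop := ∀ (X : 𝒱.Obj) (t : H.A X), P X → X.dim = n → t ∈ T X → IsAlg H r t

/-- The self-correspondence `W` of `X` factors through a variety of dimension `n` in the class `P`,
by correspondences of degree zero, and `W ∘ W = 0`. Then `1 + W` is an automorphism of the motive
of `X`, with the inverse `1 - W`. -/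
def IsUnip (C : TheoryData.{u, v, 0} 𝒱 ℚ) (P : 𝒱.Obj → Prop) (n : ℕ) (X : 𝒱.Obj)
    (W : C.A (X.prod X)) : Prop :=
  C.comp W W = 0 ∧ ∃ (Y : 𝒱.Obj) (Γ : C.A (X.prod Y)) (Δ : C.A (Y.prod X)), P Y ∧ Y.dim = n ∧
    C.Deg n Γ ∧ C.Deg n Δ ∧ W = C.comp Γ Δ

/-- The action of `1 + W i` (for `x = (i, true)`) or `1 - W i` (for `x = (i, false)`) on the
cohomology of `X`. -/
noncomputable def letter {X : 𝒱.Obj} (W : Fin 2 → C.A (X.prod X)) (x : Fin 2 × Bool)
    (t : H.A X) : H.A X :=
  if x.2 then t + H.act (H.cl (W x.1)) t else t - H.act (H.cl (W x.1)) t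

/-- The action of the element `w` of the free group of rank two on the cohomology of `X`, the
generators acting as `1 + W 0` and `1 + W 1`: the letters of the reduced word for `w` are applied one
after the other, the last one first. -/
noncomputable def wordAct {X : 𝒱.Obj} (W : Fin 2 → C.A (X.prod X)) (w : FreeGroup (Fin 2))
    (t : H.A X) : H.A X :=
  w.toWord.foldr (letter W) t

/-- For all varieties `X` of dimension `n` and all such `W 0`, `W 1` the automorphisms `1 + W 0`,
`1 + W 1` satisfy a nontrivial relation on `T X` modulo algebraic classes: they do not generate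
freely a free group. -/
def NoFreePairs : Prop :=
  ∀ (X : 𝒱.Obj) (W : Fin 2 → C.A (X.prod X)), X.dim = n → (∀ i, IsUnip C P n X (W i)) →
    ∃ w : FreeGroup (Fin 2), w ≠ 1 ∧ ∀ t ∈ T X, IsAlg H r (wordAct W w t - t)

/-- For all varieties `X` of dimension `n`, all such `W 0`, `W 1` and all `t` in `T X` there are a
nontrivial element `w` of the free group of rank two and an element `c` of `K` such that
`w(1 + W 0, 1 + W 1) t - c t` is algebraic. -/
def NoFreeLines : Prop :=
  ∀ (X : 𝒱.Obj) (W : Fin 2 → C.A (X.prod X)), X.dim = n → (∀ i, IsUnip C P n X (W i)) →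
    ∀ t ∈ T X, ∃ (w : FreeGroup (Fin 2)) (c : K), w ≠ 1 ∧ IsAlg H r (wordAct W w t - c • t)

end Pool.Agent.V1178.TF
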