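import Pool.Agent.V1157.BD.Main
import Pool.Agent.V1178.FG.Ping
import Pool.Agent.V1178.TF.Defs

/-!
# The Tate conjecture and free groups of motivic automorphisms
-/

set_option autoImplicit false

open CategoryTheory AlgebraicGeometry

universe u v w

namespace Pool.Agent.V1178.TF

open Pool.Agent.H914 Pool.Agent.H914.VarClass Pool.Agent.H914.VarClass.Obj Pool.Agent.W492.BB
  Pool.Agent.W550.Corr Pool.Agent.TH133 Pool.Agent.Y148.BB Pool.Agent.V1157.BD
open Pool.Agent.V1157.RC (HasIntersection Cover graph_mem cog_gr pow_mem' prj prj_mem shp sqz)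
open Pool.Agent.V1178.FG (mv St Pre step trans pre_one)

set_option linter.unusedSectionVars false

variable {k : Type u} [Field k] {𝒱 : VarClass k} {C : TheoryData.{u, v, 0} 𝒱 ℚ}
  [hC : IsChowProj C] {K : Type w} [Field K] {H : WeilTheoryData.{u, v, w} C K}
  [hH : IsWeilProj H] {P : 𝒱.Obj → Prop} {n r : ℕ} {T : ∀ X : 𝒱.Obj, Submodule K (H.A X)}
  {S V X Y : 𝒱.Obj}

include hC hH

lemma actH_sub_left (Γ Δ : C.A (X.prod Y)) (t : H.A X) :
    H.act (H.cl (Γ - Δ)) t = H.act (H.cl Γ) t - H.act (H.cl Δ) t := by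
  rw [map_sub, H.act_sub]

/-- The projector on the powers of a divisor class makes all classes algebraic. -/
lemma alg_prj (hS : S.dim = n) {a : C.A S} (ha : a ∈ C.gr S 1) (m : ℚ) {t : H.A S}
    (ht : H.Deg (2 * r) t) : IsAlg H r (H.act (H.cl (prj C n a m)) t) := by
  rw [prj, act_cl_smul]
  apply alg_sc
  rw [map_sum, act_sum]
  apply alg_sum
  intro j hj
  have hj' : j ≤ n := Nat.lt_succ_iff.1 (Finset.mem_range.1 hj)
  exact alg_ext hS (i := n - j) (j := j) (by omega) (pow_mem' ha _) (pow_mem' ha _) ht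

omit hC hH in
lemma alg_trans {x y z : H.A X} (h1 : IsAlg H r (x - y)) (h2 : IsAlg H r (y - z)) :
    IsAlg H r (x - z) := by
  have := alg_add h1 h2
  rwa [sub_add_sub_cancel] at this

lemma act_deg (hX : X.dim = n) {Γ : C.A (X.prod Y)} (hΓ : Γ ∈ C.gr (X.prod Y) n) {t : H.A X}
    (ht : H.Deg (2 * r) t) : H.Deg (2 * r) (H.act (H.cl Γ) t) := by
  have h1 := actH_mem (H := H) (e := 0) (Γ := Γ) (gr_congr (by rw [hX]; ring) hΓ) ht
  rwa [mul_zero, add_zero] at h1

/-- `(1 - prj) Z (1 - prj)` acts as `Z`, modulo algebraic classes. -/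
lemma act_shp {p r' : V ⟶ S} {a b : C.A S} {m l : ℚ} (h : Cover C n p r' a b m l)
    {Z : C.A (S.prod S)} (hZ : Z ∈ C.gr (S.prod S) n) {t : H.A S} (ht : H.Deg (2 * r) t) :
    IsAlg H r (H.act (H.cl (shp n a b m l Z)) t - H.act (H.cl Z) t) := by
  have hd : dg C S - prj C n b l ∈ C.gr (S.prod S) n :=
    Submodule.sub_mem _ (gr_congr (by rw [h.dimS]) (dg_mem C S)) (prj_mem h.hb _)
  rw [shp, actH_comp, actH_comp, actH_sub_left (dg C S) (prj C n a m), actH_dg, act_map_sub,
    act_map_sub, actH_sub_left (dg C S) (prj C n b l) (H.act (H.cl Z) t), actH_dg]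
  have h1 := alg_prj h.dimS h.hb l (act_deg h.dimS hZ ht)
  have h2 := alg_act h.dimS hd (alg_act h.dimS hZ (alg_prj h.dimS h.ha m ht))
  have h3 := alg_add h1 h2
  have e : H.act (H.cl Z) t - H.act (H.cl (prj C n b l)) (H.act (H.cl Z) t) -
      H.act (H.cl (dg C S - prj C n b l)) (H.act (H.cl Z) (H.act (H.cl (prj C n a m)) t)) -
        H.act (H.cl Z) t = -(H.act (H.cl (prj C n b l)) (H.act (H.cl Z) t) +
      H.act (H.cl (dg C S - prj C n b l)) (H.act (H.cl Z) (H.act (H.cl (prj C n a m)) t))) := by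
    abel
  rw [e]
  exact Submodule.neg_mem _ h3

lemma cl_gr (f : X ⟶ Y) : H.cl (C.graph f) = H.graph f := by
  rw [TheoryData.graph, TheoryData.graph, H.cl_push, map_one]

lemma cl_cog (f : X ⟶ Y) : H.cl (C.cograph f) = H.cograph f := by
  rw [TheoryData.cograph, TheoryData.cograph, H.cl_push, map_one]

lemma push_pull_H {p : V ⟶ S} {l : ℚ} (h : C.push p 1 = l • (1 : C.A S)) (t : H.A S) :
    H.push p (H.pull p t) = sc H S l * t := by
  have h1 := H.proj_right p 1 t
  rw [one_mul] at h1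
  have h2 : H.push p (1 : H.A V) = sc H S l := by
    rw [← map_one (H.cl (X := V)), ← H.cl_push, h, sc, Algebra.algebraMap_eq_smul_one]
  rw [h1, h2]

/-- `r_* p^*` makes all classes algebraic. -/
lemma push_pull_alg {p r' : V ⟶ S} {a b : C.A S} {m l : ℚ} (h : Cover C n p r' a b m l)
    {t : H.A S} (ht : H.Deg (2 * r) t) : IsAlg H r (H.push r' (H.pull p t)) := by
  have h1 : H.push r' (H.pull p t) = H.act (H.cl (C.comp (C.cograph p) (C.graph r'))) t := by
    rw [actH_comp, cl_cog, cl_gr, H.act_cograph, H.act_graph]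
  rw [h1, cog_gr, h.cls]
  have h2 := alg_pow (r := r) h.dimS h.hb h.ha 1 ht
  rwa [one_smul] at h2

/-- The action of `sqz` on a pull-back through `p`. -/
lemma sqz_left {p r' : V ⟶ S} {a b : C.A S} {m l : ℚ} (h : Cover C n p r' a b m l)
    {t : H.A S} (ht : H.Deg (2 * r) t) :
    IsAlg H r (H.act (H.cl (sqz C n p r' a b m l ((3 / l) • dg C S))) (H.pull p t) -
      sc H V 3 * H.pull r' t) := by
  have hZ : (3 / l) • dg C S ∈ C.gr (S.prod S) n :=
    Submodule.smul_mem _ _ (gr_congr (by rw [h.dimS]) (dg_mem C S))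
  rw [sqz, actH_comp, cl_gr, H.act_graph, push_pull_H h.push_p, actH_comp, cl_cog, H.act_cograph,
    act_sc, pull_sc]
  have h1 := alg_pull r' (act_shp h hZ ht)
  rw [act_cl_smul, actH_dg, map_sub, pull_sc] at h1
  have h2 := alg_sc l h1
  rw [mul_sub, sc_mul, mul_div_cancel₀ 3 h.hl] at h2
  exact h2

/-- The action of `sqz` on a pull-back through `r`. -/
lemma sqz_right {p r' : V ⟶ S} {a b : C.A S} {m l : ℚ} (h : Cover C n p r' a b m l)
    {Z : C.A (S.prod S)} (hZ : Z ∈ C.gr (S.prod S) n) {t : H.A S} (ht : H.Deg (2 * r) t) :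
    IsAlg H r (H.act (H.cl (sqz C n p r' a b m l Z)) (H.pull r' t)) := by
  rw [sqz, actH_comp, cl_gr, H.act_graph, actH_comp, cl_cog, H.act_cograph]
  apply alg_pull
  have hprj : ∀ {a' : C.A S} {m' : ℚ}, a' ∈ C.gr S 1 →
      dg C S - prj C n a' m' ∈ C.gr (S.prod S) n := fun ha' =>
    Submodule.sub_mem _ (gr_congr (by rw [h.dimS]) (dg_mem C S)) (prj_mem ha' _)
  rw [shp, actH_comp, actH_comp]
  exact alg_act h.dimS (hprj h.hb) (alg_act h.dimS hZ (alg_act h.dimS (hprj h.ha)
    (push_pull_alg h.symm ht)))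

/-! ### Words -/

lemma letter_congr (hX : X.dim = n) {W : Fin 2 → C.A (X.prod X)}
    (hW : ∀ i, W i ∈ C.gr (X.prod X) n) (x : Fin 2 × Bool) {y z : H.A X}
    (h : IsAlg H r (y - z)) : IsAlg H r (letter W x y - letter W x z) := by
  have h1 := alg_act hX (hW x.1) h
  rw [act_map_sub] at h1
  rw [letter, letter]
  split_ifs
  · have e : y + H.act (H.cl (W x.1)) y - (z + H.act (H.cl (W x.1)) z) =
      (y - z) + (H.act (H.cl (W x.1)) y - H.act (H.cl (W x.1)) z) := by abel
    rw [e]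
    exact alg_add h h1
  · have e : y - H.act (H.cl (W x.1)) y - (z - H.act (H.cl (W x.1)) z) =
      (y - z) - (H.act (H.cl (W x.1)) y - H.act (H.cl (W x.1)) z) := by abel
    rw [e]
    exact alg_sub h h1

/-- The combination of `e 0` and `e 1` with coefficients `p`. -/
noncomputable def vec (e : Fin 2 → H.A X) (p : ℚ × ℚ) : H.A X :=
  sc H X p.1 * e 0 + sc H X p.2 * e 1

lemma sc_add (p q : ℚ) (x : H.A X) : sc H X (p + q) * x = sc H X p * x + sc H X q * x := by
  rw [sc, sc, sc, map_add, map_add, add_mul]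

lemma sc_sub (p q : ℚ) (x : H.A X) : sc H X (p - q) * x = sc H X p * x - sc H X q * x := by
  rw [sc, sc, sc, map_sub, map_sub, sub_mul]

lemma letter_vec {W : Fin 2 → C.A (X.prod X)} {e : Fin 2 → H.A X}
    (h00 : IsAlg H r (H.act (H.cl (W 0)) (e 0)))
    (h01 : IsAlg H r (H.act (H.cl (W 0)) (e 1) - sc H X 3 * e 0))
    (h10 : IsAlg H r (H.act (H.cl (W 1)) (e 0) - sc H X 3 * e 1))
    (h11 : IsAlg H r (H.act (H.cl (W 1)) (e 1))) (x : Fin 2 × Bool) (p : ℚ × ℚ) :
    IsAlg H r (letter W x (vec e p) - vec e (mv x p)) := by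
  obtain ⟨u, v⟩ := p
  have g0 : IsAlg H r (H.act (H.cl (W 0)) (vec e (u, v)) - sc H X (3 * v) * e 0) := by
    rw [vec, act_map_add, act_sc, act_sc]
    have h1 := alg_add (alg_sc u h00) (alg_sc v h01)
    rw [mul_sub, sc_mul] at h1
    rw [mul_comm 3 v, add_sub_assoc]
    exact h1
  have g1 : IsAlg H r (H.act (H.cl (W 1)) (vec e (u, v)) - sc H X (3 * u) * e 1) := by
    rw [vec, act_map_add, act_sc, act_sc]
    have h1 := alg_add (alg_sc u h10) (alg_sc v h11)
    rw [mul_sub, sc_mul] at h1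
    have e1 : sc H X u * H.act (H.cl (W 1)) (e 0) + sc H X v * H.act (H.cl (W 1)) (e 1) -
        sc H X (3 * u) * e 1 = sc H X u * H.act (H.cl (W 1)) (e 0) - sc H X (u * 3) * e 1 +
          sc H X v * H.act (H.cl (W 1)) (e 1) := by
      rw [mul_comm 3 u]
      abel
    rw [e1]
    exact h1
  obtain ⟨i, b⟩ := x
  fin_cases i <;> cases b
  · have e2 : letter W ((0 : Fin 2), false) (vec e (u, v)) - vec e (mv ((0 : Fin 2), false) (u, v)) =
        -(H.act (H.cl (W 0)) (vec e (u, v)) - sc H X (3 * v) * e 0) := by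
      change (vec e (u, v) - H.act (H.cl (W 0)) (vec e (u, v))) -
        (sc H X (u - 3 * v) * e 0 + sc H X v * e 1) = _
      rw [sc_sub, vec]
      abel
    change IsAlg H r (letter W ((0 : Fin 2), false) (vec e (u, v)) -
      vec e (mv ((0 : Fin 2), false) (u, v)))
    rw [e2]
    exact Submodule.neg_mem _ g0
  · have e2 : letter W ((0 : Fin 2), true) (vec e (u, v)) - vec e (mv ((0 : Fin 2), true) (u, v)) =
        (H.act (H.cl (W 0)) (vec e (u, v)) - sc H X (3 * v) * e 0) := by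
      change (vec e (u, v) + H.act (H.cl (W 0)) (vec e (u, v))) -
        (sc H X (u + 3 * v) * e 0 + sc H X v * e 1) = _
      rw [sc_add, vec]
      abel
    change IsAlg H r (letter W ((0 : Fin 2), true) (vec e (u, v)) -
      vec e (mv ((0 : Fin 2), true) (u, v)))
    rw [e2]
    exact g0
  · have e2 : letter W ((1 : Fin 2), false) (vec e (u, v)) - vec e (mv ((1 : Fin 2), false) (u, v)) =
        -(H.act (H.cl (W 1)) (vec e (u, v)) - sc H X (3 * u) * e 1) := by
      change (vec e (u, v) - H.act (H.cl (W 1)) (vec e (u, v))) -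
        (sc H X u * e 0 + sc H X (v - 3 * u) * e 1) = _
      rw [sc_sub, vec]
      abel
    change IsAlg H r (letter W ((1 : Fin 2), false) (vec e (u, v)) -
      vec e (mv ((1 : Fin 2), false) (u, v)))
    rw [e2]
    exact Submodule.neg_mem _ g1
  · have e2 : letter W ((1 : Fin 2), true) (vec e (u, v)) - vec e (mv ((1 : Fin 2), true) (u, v)) =
        (H.act (H.cl (W 1)) (vec e (u, v)) - sc H X (3 * u) * e 1) := by
      change (vec e (u, v) + H.act (H.cl (W 1)) (vec e (u, v))) -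
        (sc H X u * e 0 + sc H X (v + 3 * u) * e 1) = _
      rw [sc_add, vec]
      abel
    change IsAlg H r (letter W ((1 : Fin 2), true) (vec e (u, v)) -
      vec e (mv ((1 : Fin 2), true) (u, v)))
    rw [e2]
    exact g1

lemma word_vec (hX : X.dim = n) {W : Fin 2 → C.A (X.prod X)} {e : Fin 2 → H.A X}
    (hW : ∀ i, W i ∈ C.gr (X.prod X) n)
    (hT : ∀ (x : Fin 2 × Bool) (p : ℚ × ℚ), IsAlg H r (letter W x (vec e p) - vec e (mv x p))) :
    ∀ (L : List (Fin 2 × Bool)) (x : Fin 2 × Bool), FreeGroup.IsReduced (x :: L) →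
      ∃ p : ℚ × ℚ, IsAlg H r ((x :: L).foldr (letter W) (vec e (1, 1)) - vec e p) ∧
        St x p.1 p.2 := by
  intro L
  induction L with
  | nil =>
    intro x _
    exact ⟨mv x (1, 1), hT x (1, 1), step (pre_one x)⟩
  | cons y L ih =>
    intro x hx
    rw [FreeGroup.isReduced_cons_cons] at hx
    obtain ⟨p, h1, h2⟩ := ih y hx.2
    refine ⟨mv x p, ?_, step (trans h2 hx.1)⟩
    rw [List.foldr_cons]
    exact alg_trans (letter_congr hX hW x h1) (hT x p)

/-- The two unipotent automorphisms. -/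
theorem core {p r' : V ⟶ S} {a b : C.A S} {m l : ℚ} (h : Cover C n p r' a b m l)
    {t : H.A S} (ht : H.Deg (2 * r) t) (hne : ¬ IsAlg H r t) :
    ∃ W : Fin 2 → C.A (V.prod V), (∀ i, C.comp (W i) (W i) = 0) ∧
      (∀ i, ∃ (Γ : C.A (V.prod S)) (Δ : C.A (S.prod V)), C.Deg n Γ ∧ C.Deg n Δ ∧
        W i = C.comp Γ Δ) ∧
      ∀ (w : FreeGroup (Fin 2)) (c : K), w ≠ 1 →
        ¬ IsAlg H r (wordAct W w (H.pull p t + H.pull r' t) -
          c • (H.pull p t + H.pull r' t)) := by
  have hdg : ∀ q : ℚ, q • dg C S ∈ C.gr (S.prod S) n := fun q =>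
    Submodule.smul_mem _ _ (gr_congr (by rw [h.dimS]) (dg_mem C S))
  set Z₀ : C.A (S.prod S) := (3 / m) • dg C S with hZ₀
  set Z₁ : C.A (S.prod S) := (3 / l) • dg C S with hZ₁
  have hgr : ∀ f : V ⟶ S, C.graph f ∈ C.gr (V.prod S) n := fun f =>
    gr_congr (by rw [h.dimS]) (graph_mem f)
  have hcg : ∀ f : V ⟶ S, C.cograph f ∈ C.gr (S.prod V) n := fun f =>
    gr_congr (by rw [h.dimS]) (cograph_mem f)
  have c0 : ∀ {X Y U : 𝒱.Obj} (hX : X.dim = n) (hY : Y.dim = n) {Γ : C.A (X.prod Y)}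
      {Δ : C.A (Y.prod U)}, Γ ∈ C.gr (X.prod Y) n → Δ ∈ C.gr (Y.prod U) n →
      C.comp Γ Δ ∈ C.gr (X.prod U) n := by
    intro X Y U hX hY Γ Δ hΓ hΔ
    have h1 : Γ ∈ C.gr (X.prod Y) (X.dim + 0) := gr_congr (by rw [hX]; ring) hΓ
    have h2 : Δ ∈ C.gr (Y.prod U) (Y.dim + 0) := gr_congr (by rw [hY]; ring) hΔ
    exact gr_congr (by rw [hX]; ring) (comp_mem C h1 h2)
  have hprj : ∀ {a' : C.A S} {m' : ℚ}, a' ∈ C.gr S 1 →
      dg C S - prj C n a' m' ∈ C.gr (S.prod S) n := fun ha' =>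
    Submodule.sub_mem _ (gr_congr (by rw [h.dimS]) (dg_mem C S)) (prj_mem ha' _)
  have hshp : ∀ {a' b' : C.A S} {m' l' : ℚ} {Z : C.A (S.prod S)}, a' ∈ C.gr S 1 →
      b' ∈ C.gr S 1 → Z ∈ C.gr (S.prod S) n → shp n a' b' m' l' Z ∈ C.gr (S.prod S) n :=
    fun ha' hb' hZ => c0 h.dimS h.dimS (hprj ha') (c0 h.dimS h.dimS hZ (hprj hb'))
  set W : Fin 2 → C.A (V.prod V) := ![sqz C n r' p b a l m Z₀, sqz C n p r' a b m l Z₁] with hW
  have hWg : ∀ i, W i ∈ C.gr (V.prod V) n := by
    intro i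
    fin_cases i
    · exact c0 h.dimV h.dimS (hgr r') (c0 h.dimS h.dimS (hshp h.hb h.ha (hdg _)) (hcg p))
    · exact c0 h.dimV h.dimS (hgr p) (c0 h.dimS h.dimS (hshp h.ha h.hb (hdg _)) (hcg r'))
  refine ⟨W, ?_, ?_, ?_⟩
  · intro i
    fin_cases i
    · exact h.symm.sqz_sq Z₀
    · exact h.sqz_sq Z₁
  · intro i
    fin_cases i
    · exact ⟨C.graph r', _, hgr r', c0 h.dimS h.dimS (hshp h.hb h.ha (hdg _)) (hcg p), rfl⟩
    · exact ⟨C.graph p, _, hgr p, c0 h.dimS h.dimS (hshp h.ha h.hb (hdg _)) (hcg r'), rfl⟩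
  · intro w c hw hcon
    set e : Fin 2 → H.A V := ![H.pull p t, H.pull r' t] with he
    have h00 : IsAlg H r (H.act (H.cl (W 0)) (e 0)) := sqz_right h.symm (hdg _) ht
    have h01 : IsAlg H r (H.act (H.cl (W 0)) (e 1) - sc H V 3 * e 0) := sqz_left h.symm ht
    have h10 : IsAlg H r (H.act (H.cl (W 1)) (e 0) - sc H V 3 * e 1) := sqz_left h ht
    have h11 : IsAlg H r (H.act (H.cl (W 1)) (e 1)) := sqz_right h (hdg _) ht
    have hL : FreeGroup.IsReduced w.toWord := FreeGroup.isReduced_toWord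
    have hnil : w.toWord ≠ [] := fun h => hw (FreeGroup.toWord_eq_nil_iff.1 h)
    obtain ⟨x, L, hxL⟩ := List.exists_cons_of_ne_nil hnil
    rw [hxL] at hL
    obtain ⟨q, g1, g2⟩ := word_vec h.dimV hWg (letter_vec h00 h01 h10 h11) L x hL
    have hv : H.pull p t + H.pull r' t = vec e (1, 1) := by
      rw [vec, sc_one, sc_one]
      rfl
    rw [wordAct, hxL, hv] at hcon
    have g3 := alg_sub hcon g1
    have e3 : (x :: L).foldr (letter W) (vec e (1, 1)) - c • vec e (1, 1) -
        ((x :: L).foldr (letter W) (vec e (1, 1)) - vec e q) = vec e q - c • vec e (1, 1) := by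
      abel
    rw [e3] at g3
    -- push forward by `p` and by `r'`
    have k1 : IsAlg H r (sc H S q.1 * t - c • t) := by
      have g4 := alg_push h.dimV h.dimS p g3
      rw [vec, vec, sc_one, sc_one, map_sub, map_add, map_smul, map_add, push_sc, push_sc] at g4
      change IsAlg H r (sc H S q.1 * H.push p (H.pull p t) + sc H S q.2 * H.push p (H.pull r' t) -
        c • (H.push p (H.pull p t) + H.push p (H.pull r' t))) at g4
      have g5 := push_pull_alg h.symm ht
      rw [push_pull_H h.push_p] at g4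
      have g6 := alg_sub g4 (alg_sub (alg_sc q.2 g5) (alg_smul c g5))
      have e4 : sc H S q.1 * (sc H S l * t) + sc H S q.2 * H.push p (H.pull r' t) -
          c • (sc H S l * t + H.push p (H.pull r' t)) -
          (sc H S q.2 * H.push p (H.pull r' t) - c • H.push p (H.pull r' t)) =
          sc H S l * (sc H S q.1 * t - c • t) := by
        rw [smul_add, mul_sub, sc_mul, sc_mul, mul_comm q.1 l, mul_smul_comm]
        abel
      rw [e4] at g6
      exact alg_of_sc h.hl g6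
    have k2 : IsAlg H r (sc H S q.2 * t - c • t) := by
      have g4 := alg_push h.dimV h.dimS r' g3
      rw [vec, vec, sc_one, sc_one, map_sub, map_add, map_smul, map_add, push_sc, push_sc] at g4
      change IsAlg H r (sc H S q.1 * H.push r' (H.pull p t) + sc H S q.2 * H.push r' (H.pull r' t) -
        c • (H.push r' (H.pull p t) + H.push r' (H.pull r' t))) at g4
      have g5 := push_pull_alg h ht
      rw [push_pull_H h.symm.push_p] at g4
      have g6 := alg_sub g4 (alg_sub (alg_sc q.1 g5) (alg_smul c g5))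
      have e4 : sc H S q.1 * H.push r' (H.pull p t) + sc H S q.2 * (sc H S m * t) -
          c • (H.push r' (H.pull p t) + sc H S m * t) -
          (sc H S q.1 * H.push r' (H.pull p t) - c • H.push r' (H.pull p t)) =
          sc H S m * (sc H S q.2 * t - c • t) := by
        rw [smul_add, mul_sub, sc_mul, sc_mul, mul_comm q.2 m, mul_smul_comm]
        abel
      rw [e4] at g6
      exact alg_of_sc h.hm g6
    have k3 := alg_sub k1 k2
    rw [sub_sub_sub_cancel_right, ← sc_sub] at k3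
    have hq : q.1 - q.2 ≠ 0 := by
      intro h6
      have h6' : q.1 = q.2 := by linarith
      obtain ⟨i, b'⟩ := x
      obtain ⟨q1, q2, -, -⟩ := g2
      fin_cases i
      · have := q1 rfl
        rw [h6'] at this
        exact lt_irrefl _ this
      · have := q2 rfl
        rw [h6'] at this
        exact lt_irrefl _ this
    exact hne (alg_of_sc hq k3)

/-- **The Tate conjecture and free groups.** -/
theorem main (hT : IsTateFamily (C := C) (H := H) n r T)
    (hI : ∀ S : 𝒱.Obj, P S → S.dim = n → HasIntersection C n S S) :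
    List.TFAE [TateFor P n r T, NoFreePairs P n r T, NoFreeLines P n r T] := by
  tfae_have 1 → 2 := by
    intro h X W hX hW
    refine ⟨FreeGroup.of 0, FreeGroup.of_ne_one 0, fun t ht => ?_⟩
    obtain ⟨-, Y, Γ, Δ, hP, hY, hΓ, hΔ, h1⟩ := hW 0
    have h2 : IsAlg H r (H.act (H.cl (W 0)) t) := by
      rw [h1, actH_comp]
      exact alg_act hY hΔ (h Y _ hP hY (hT.act Γ hX hY hΓ ht))
    rw [wordAct, FreeGroup.toWord_of]
    change IsAlg H r (t + H.act (H.cl (W 0)) t - t)
    rwa [add_sub_cancel_left]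
  tfae_have 2 → 3 := by
    intro h X W hX hW t ht
    obtain ⟨w, hw, h1⟩ := h X W hX hW
    exact ⟨w, 1, hw, by rw [one_smul]; exact h1 t ht⟩
  tfae_have 3 → 1 := by
    intro h S t hPS hS ht
    by_contra hne
    obtain ⟨V, p, r', a, b, m, l, h1, h2, h3, h4, h5, h6, h7, h8⟩ := hI S hPS hS
    have hcov : Cover C n p r' a b m l := ⟨hS, hS, h1, h2, h3, h4, h5, h6, h7, h8⟩
    obtain ⟨W, hsq, hfac, hfree⟩ := core hcov (hT.deg hS ht) hne
    have hmem : ∀ f : V ⟶ S, H.pull f t ∈ T V := by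
      intro f
      rw [← H.act_cograph, ← cl_cog]
      exact hT.act _ hS h1 (gr_congr (by rw [hS]) (cograph_mem f)) ht
    obtain ⟨w, c, hw, hc⟩ := h V W h1 (fun i => by
      obtain ⟨Γ, Δ, g1, g2, g3⟩ := hfac i
      exact ⟨hsq i, S, Γ, Δ, hPS, hS, g1, g2, g3⟩) _
      (Submodule.add_mem _ (hmem p) (hmem r'))
    exact hfree w c hw hc
  tfae_finish

end Pool.Agent.V1178.TF
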